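import Pool.Agent.T9h90.SP.Spec

/-!
# Project SP (helper90, MP_29428b_lc), piece TV: transversals of an inflation
-/

set_option autoImplicit false

namespace Pool.Agent.T9h70.SP

open Pool.Agent.Helper617.RM Pool.Agent.T9h90.SP

universe u

theorem unb_mono {M : Type u} [LT M] {A B : Set M} (h : Unb A) (hAB : A ⊆ B) : Unb B := by
  intro b
  obtain ⟨y, hy, hb⟩ := h b
  exact ⟨y, hAB hy, hb⟩

theorem copy_mono {M : Type u} [LT M] {f : M → M → Bool} {A B : Set M} {p : Sep} {x : ℕ → M}
    (h : Copy f A p x) (hAB : A ⊆ B) : Copy f B p x :=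
  ⟨fun i hi => hAB (h.1 i hi), h.2⟩

theorem tv : S_CP.{u} → S_TV.{u} := by
  intro hCP M _ f H c b q
  induction b generalizing H with
  | one =>
    intro z W hW hz hq
    obtain ⟨i, hi, hU⟩ := hq z hz W (Set.Subset.refl W) hW
    refine ⟨fun _ => z i, ⟨fun j _ => hz.1 i hi, ?_⟩, fun j _ => ⟨i, hi, rfl⟩, ?_⟩
    · intro a b hab hb
      simp only [Sep.size] at hb
      omega
    · refine unb_mono hU ?_
      rintro w ⟨h1, h2⟩
      exact ⟨h1, fun _ _ => h2⟩
  | node d b1 b2 ih1 ih2 =>
    intro z W hW hz hq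
    have hz' : Copy f H (.node d (b1.infl q) (b2.infl q)) z := hz
    obtain ⟨hz1, hz2⟩ := (hCP M f H d (b1.infl q) (b2.infl q)).2 z hz'
    obtain ⟨u1, h11, h12, h13⟩ := ih1 H z W hW hz1 hq
    have hsub : Nc f d H (b1.infl q).size z ⊆ H := fun w hw => hw.1
    obtain ⟨u2, h21, h22, h23⟩ := ih2 (Nc f d H (b1.infl q).size z)
      (fun i => z ((b1.infl q).size + i)) {w | w ∈ W ∧ ∀ i, i < b1.size → f (u1 i) w = c} h13 hz2
      (fun x hx W' hW' hU => hq x (copy_mono hx hsub) W' (fun w hw => (hW' hw).1) hU)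
    have h24 : Copy f (Nc f d H b1.size u1) b2 u2 := by
      refine copy_mono (A := {w | ∃ i, i < b2.size ∧ w = u2 i}) ⟨fun i hi => ⟨i, hi, rfl⟩, h21.2⟩ ?_
      rintro w ⟨i, hi, rfl⟩
      have h := h21.1 i hi
      refine ⟨h.1, fun j hj => ?_⟩
      obtain ⟨k, hk, hjk⟩ := h12 j hj
      rw [hjk]
      exact h.2 k hk
    refine ⟨fun i => if i < b1.size then u1 i else u2 (i - b1.size),
      (hCP M f H d b1 b2).1 u1 u2 h11 h24, ?_, ?_⟩
    · intro i hi
      have hi' : i < b1.size + b2.size := hi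
      have hsz : (Sep.infl (.node d b1 b2) q).size = (b1.infl q).size + (b2.infl q).size := rfl
      rw [hsz]
      by_cases h : i < b1.size
      · obtain ⟨k, hk, hik⟩ := h12 i h
        exact ⟨k, by omega, by simp only [h, if_true]; exact hik⟩
      · obtain ⟨k, hk, hik⟩ := h22 (i - b1.size) (by omega)
        exact ⟨(b1.infl q).size + k, by omega, by simp only [h, if_false]; exact hik⟩
    · refine unb_mono h23 ?_
      rintro w ⟨⟨h1, h2⟩, h3⟩
      refine ⟨h1, fun i hi => ?_⟩
      have hi' : i < b1.size + b2.size := hi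
      by_cases h : i < b1.size
      · simp only [h, if_true]
        exact h2 i h
      · simp only [h, if_false]
        exact h3 (i - b1.size) (by omega)

end Pool.Agent.T9h70.SP
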